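import Pool.Agent.N657.QL.Stm2
import Pool.Agent.N615.QR_LAT

/-!
# Project QL (helper657), task GAM (helper822): lattice sums are continuous at `γ = 0`
-/

set_option autoImplicit false

namespace Pool.Agent.N822.QLGAM

open Pool.Agent.N657.QR Pool.Agent.N657.QL Pool.Agent.N615.QRLAT

/-- the fourth root -/
noncomputable def qr (x : ℝ) : ℝ := Real.sqrt (Real.sqrt x)

theorem qr_nn (x : ℝ) : 0 ≤ qr x := Real.sqrt_nonneg _

theorem qr_pos {x : ℝ} (h : 0 < x) : 0 < qr x := Real.sqrt_pos.2 (Real.sqrt_pos.2 h)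

theorem qr_sq (x : ℝ) : qr x ^ 2 = Real.sqrt x := Real.sq_sqrt (Real.sqrt_nonneg _)

theorem qr_four {x : ℝ} (h : 0 ≤ x) : qr x ^ 4 = x := by
  have : qr x ^ 4 = (qr x ^ 2) ^ 2 := by ring
  rw [this, qr_sq, Real.sq_sqrt h]

theorem qr_mono {x y : ℝ} (h : x ≤ y) : qr x ≤ qr y := Real.sqrt_le_sqrt (Real.sqrt_le_sqrt h)

theorem qr_mul {x y : ℝ} (h : 0 ≤ x) : qr (x * y) = qr x * qr y := by
  unfold qr
  rw [Real.sqrt_mul h, Real.sqrt_mul (Real.sqrt_nonneg _)]

theorem qr_four' {x : ℝ} (h : 0 ≤ x) : qr (x ^ 4) = x := by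
  unfold qr
  rw [show x ^ 4 = (x ^ 2) ^ 2 by ring, Real.sqrt_sq (by positivity), Real.sqrt_sq h]

/-- the elementary inequality -/
theorem diff_bd {l g : ℝ} (hl : 0 < l) (hg : 0 ≤ g) :
    1 / Real.sqrt l ≤ 1 / Real.sqrt (l + 2 * g) + qr g * (1 / qr l ^ 3) := by
  have hw : 0 < l + 2 * g := by linarith
  rw [← qr_sq, ← qr_sq]
  set a := qr l with ha
  set b := qr g with hb
  set w := qr (l + 2 * g) with hwd
  have ha0 : 0 < a := qr_pos hl
  have hb0 : 0 ≤ b := qr_nn g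
  have hw0 : 0 < w := qr_pos hw
  have e1 : w ^ 4 = a ^ 4 + 2 * b ^ 4 := by
    rw [ha, hb, hwd, qr_four hw.le, qr_four hl.le, qr_four hg]
  have haw : a ≤ w := qr_mono (by linarith)
  rcases le_total a b with h | h
  · have h1 : 1 / a ^ 2 ≤ b * (1 / a ^ 3) := by
      have : b * (1 / a ^ 3) = (b / a) * (1 / a ^ 2) := by field_simp
      rw [this]
      have h2 : 1 ≤ b / a := by rw [le_div_iff₀ ha0]; linarith
      have h3 : 0 ≤ 1 / a ^ 2 := by positivity
      nlinarith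
    have h2 : 0 ≤ 1 / w ^ 2 := by positivity
    linarith
  · have h1 : 1 / a ^ 2 - 1 / w ^ 2 ≤ b * (1 / a ^ 3) := by
      have h2 : 1 / a ^ 2 - 1 / w ^ 2 = (w ^ 2 - a ^ 2) / (a ^ 2 * w ^ 2) := by
        field_simp
      have hwa : a ^ 2 ≤ w ^ 2 := pow_le_pow_left₀ ha0.le haw 2
      have h3 : (w ^ 2 - a ^ 2) * a ^ 2 ≤ b ^ 4 := by nlinarith
      have hb3 : b ^ 3 ≤ a ^ 3 := pow_le_pow_left₀ hb0 h 3
      rw [h2, div_le_iff₀ (by positivity)]
      have h4 : b * (1 / a ^ 3) * (a ^ 2 * w ^ 2) = b * w ^ 2 / a := by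
        field_simp
      rw [h4, le_div_iff₀ ha0]
      have h5 : (w ^ 2 - a ^ 2) * a * a ^ 3 ≤ b * w ^ 2 * a ^ 3 := by
        calc (w ^ 2 - a ^ 2) * a * a ^ 3 = ((w ^ 2 - a ^ 2) * a ^ 2) * a ^ 2 := by ring
          _ ≤ b ^ 4 * a ^ 2 := mul_le_mul_of_nonneg_right h3 (by positivity)
          _ = (b * b ^ 3) * a ^ 2 := by ring
          _ ≤ (b * a ^ 3) * w ^ 2 := by
            apply mul_le_mul _ hwa (by positivity) (by positivity)
            exact mul_le_mul_of_nonneg_left hb3 hb0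
          _ = b * w ^ 2 * a ^ 3 := by ring
      exact le_of_mul_le_mul_right h5 (by positivity)
    linarith

theorem sum_qr (L : ℕ) : ∑ m ∈ Finset.range L, 1 / qr ((m : ℝ) + 1) ^ 3 ≤ 4 * qr L := by
  induction L with
  | zero => simp [qr]
  | succ L ih =>
    rw [Finset.sum_range_succ]
    push_cast
    set u := qr ((L : ℝ) + 1) with hu
    set v := qr (L : ℝ) with hv
    have h1 : 0 < u := qr_pos (by positivity)
    have h0 : 0 ≤ v := qr_nn _
    have h2 : v ≤ u := qr_mono (by linarith)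
    have h3 : u ^ 4 = (L : ℝ) + 1 := qr_four (by positivity)
    have h4 : v ^ 4 = (L : ℝ) := qr_four (by positivity)
    have h5 : 1 / u ^ 3 ≤ 4 * u - 4 * v := by
      rw [div_le_iff₀ (by positivity)]
      have h6 : (u - v) * (u ^ 3 + u ^ 2 * v + u * v ^ 2 + v ^ 3) = 1 := by
        calc (u - v) * (u ^ 3 + u ^ 2 * v + u * v ^ 2 + v ^ 3) = u ^ 4 - v ^ 4 := by ring
          _ = 1 := by rw [h3, h4]; ring
      have e1 : u ^ 2 * v ≤ u ^ 2 * u := mul_le_mul_of_nonneg_left h2 (by positivity)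
      have e2 : u * v ^ 2 ≤ u * u ^ 2 :=
        mul_le_mul_of_nonneg_left (pow_le_pow_left₀ h0 h2 2) h1.le
      have e3 : v ^ 3 ≤ u ^ 3 := pow_le_pow_left₀ h0 h2 3
      have h7 : u ^ 3 + u ^ 2 * v + u * v ^ 2 + v ^ 3 ≤ 4 * u ^ 3 := by nlinarith
      have h8 := mul_le_mul_of_nonneg_left h7 (sub_nonneg.2 h2)
      linarith
    linarith

section

variable {L : ℕ} [NeZero L]

theorem sum_mu3 : ∑ t : ZMod L, 1 / qr (1 + mu t) ^ 3 ≤ 8 * qr L := by
  have h1 : ∀ t : ZMod L, 1 / qr (1 + mu t) ^ 3 ≤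
      1 / qr ((t.val : ℝ) + 1) ^ 3 + 1 / qr (((L - 1 - t.val : ℕ) : ℝ) + 1) ^ 3 := by
    intro t
    have hv := val_le t
    have hlt := ZMod.val_lt t
    have e : ((L - 1 - t.val : ℕ) : ℝ) = (L : ℝ) - 1 - t.val := by
      rw [Nat.cast_sub (by omega), Nat.cast_sub (by omega)]
      push_cast
      ring
    have hv0 : (0 : ℝ) ≤ t.val := Nat.cast_nonneg _
    have q1 := qr_nn (((L - 1 - t.val : ℕ) : ℝ) + 1)
    have q2 := qr_nn ((t.val : ℝ) + 1)
    unfold mu
    rcases le_total (t.val : ℝ) ((L : ℝ) - t.val) with h | h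
    · rw [min_eq_left h, add_comm (1 : ℝ)]
      have : 0 ≤ 1 / qr (((L - 1 - t.val : ℕ) : ℝ) + 1) ^ 3 := by positivity
      linarith
    · rw [min_eq_right h, e]
      have h2 : 0 ≤ 1 / qr ((t.val : ℝ) + 1) ^ 3 := by positivity
      have h3 : 1 / qr (1 + ((L : ℝ) - t.val)) ^ 3 ≤ 1 / qr ((L : ℝ) - 1 - t.val + 1) ^ 3 := by
        apply one_div_le_one_div_of_le
        · apply pow_pos; apply qr_pos; linarith
        · apply pow_le_pow_left₀ (qr_nn _); apply qr_mono; linarith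
      linarith
  calc ∑ t : ZMod L, 1 / qr (1 + mu t) ^ 3 ≤
        ∑ t : ZMod L, (1 / qr ((t.val : ℝ) + 1) ^ 3 +
          1 / qr (((L - 1 - t.val : ℕ) : ℝ) + 1) ^ 3) := Finset.sum_le_sum fun t _ => h1 t
    _ = ∑ m ∈ Finset.range L, 1 / qr ((m : ℝ) + 1) ^ 3 +
          ∑ m ∈ Finset.range L, 1 / qr (((L - 1 - m : ℕ) : ℝ) + 1) ^ 3 := by
        rw [Finset.sum_add_distrib, sum_val (fun m => 1 / qr ((m : ℝ) + 1) ^ 3),
          sum_val (fun m => 1 / qr (((L - 1 - m : ℕ) : ℝ) + 1) ^ 3)]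
    _ = ∑ m ∈ Finset.range L, 1 / qr ((m : ℝ) + 1) ^ 3 +
          ∑ m ∈ Finset.range L, 1 / qr ((m : ℝ) + 1) ^ 3 := by
        rw [Finset.sum_range_reflect (fun m => 1 / qr ((m : ℝ) + 1) ^ 3) L]
    _ ≤ 8 * qr L := by
        have := sum_qr L
        linarith

variable {d : ℕ}

/-- the bound for one momentum -/
theorem one_k3 {i₀ i₁ : Fin d} (hi : i₀ ≠ i₁) {k : Fin d → ZMod L} (hk : k ≠ 0) :
    0 < lam k ∧ 1 / qr (lam k) ^ 3 ≤ (qr L ^ 3 / qr (1 + mu (k i₀)) ^ 3) *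
      (qr L ^ 3 / qr (1 + mu (k i₁)) ^ 3) := by
  have hL : (0 : ℝ) < L := by exact_mod_cast Nat.pos_of_ne_zero (NeZero.ne L)
  set a := mu (k i₀) with ha
  set b := mu (k i₁) with hb
  have ha0 : 0 ≤ a := mu_nn _
  have hb0 : 0 ≤ b := mu_nn _
  set S := ∑ i, mu (k i) ^ 2 with hS
  have h1 : 16 * S / L ^ 2 ≤ lam k := by
    unfold lam
    rw [hS, Finset.mul_sum, Finset.sum_div]
    apply Finset.sum_le_sum
    intro i _
    have hv := val_le (k i)
    exact cos_bd hL (Nat.cast_nonneg _) (by linarith)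
  have h2 : 1 ≤ S := by
    obtain ⟨i, hi'⟩ := Function.ne_iff.1 hk
    have h3 : mu (k i) ^ 2 ≤ S :=
      Finset.single_le_sum (f := fun i => mu (k i) ^ 2) (fun j _ => sq_nonneg _)
        (Finset.mem_univ i)
    have h4 := mu_one (show k i ≠ 0 from hi')
    nlinarith
  have h3 : a ^ 2 + b ^ 2 ≤ S := by
    have h4 : ∑ i ∈ ({i₀, i₁} : Finset (Fin d)), mu (k i) ^ 2 ≤ S :=
      Finset.sum_le_sum_of_subset_of_nonneg (Finset.subset_univ _) (fun j _ _ => sq_nonneg _)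
    rwa [Finset.sum_pair hi] at h4
  have h4 : (1 + a) * (1 + b) ≤ 16 * S := by
    nlinarith [sq_nonneg (a - b), sq_nonneg (a - 1), sq_nonneg (b - 1)]
  have h5 : ((1 + a) * (1 + b)) / L ^ 2 ≤ lam k := by
    refine le_trans ?_ h1
    apply div_le_div_of_nonneg_right _ (by positivity)
    linarith
  have hpos : 0 < ((1 + a) * (1 + b)) / (L : ℝ) ^ 2 := by positivity
  have hlam : 0 < lam k := lt_of_lt_of_le hpos h5
  refine ⟨hlam, ?_⟩
  have hA : 0 < qr (1 + a) := qr_pos (by linarith)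
  have hB : 0 < qr (1 + b) := qr_pos (by linarith)
  have hq : 0 < qr (L : ℝ) := qr_pos hL
  have h6 : (1 + a) * (1 + b) ≤ lam k * (L * L) := by
    rw [div_le_iff₀ (by positivity)] at h5
    calc (1 + a) * (1 + b) ≤ lam k * L ^ 2 := h5
      _ = lam k * (L * L) := by ring
  have h7 := qr_mono h6
  rw [qr_mul (by linarith), qr_mul hlam.le, qr_mul hL.le] at h7
  have h8 : (qr (1 + a) * qr (1 + b)) ^ 3 ≤ (qr (lam k) * (qr L * qr L)) ^ 3 :=
    pow_le_pow_left₀ (by positivity) h7 3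
  have hql : 0 < qr (lam k) := qr_pos hlam
  rw [div_mul_div_comm, div_le_div_iff₀ (by positivity) (by positivity)]
  calc 1 * (qr (1 + a) ^ 3 * qr (1 + b) ^ 3) = (qr (1 + a) * qr (1 + b)) ^ 3 := by ring
    _ ≤ (qr (lam k) * (qr L * qr L)) ^ 3 := h8
    _ = qr L ^ 3 * qr L ^ 3 * qr (lam k) ^ 3 := by ring

end

theorem lat3 (d : ℕ) (hd : 2 ≤ d) (L : ℕ) [NeZero L] :
    ∑ k ∈ (Finset.univ : Finset (Fin d → ZMod L)).erase 0, 1 / qr (lam k) ^ 3 ≤
      64 * (Fintype.card (Fin d → ZMod L) : ℝ) := by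
  have hL : (0 : ℝ) < L := by exact_mod_cast Nat.pos_of_ne_zero (NeZero.ne L)
  let i₀ : Fin d := ⟨0, by omega⟩
  let i₁ : Fin d := ⟨1, by omega⟩
  have hi : i₀ ≠ i₁ := by
    intro h
    have := congrArg Fin.val h
    simp [i₀, i₁] at this
  set h : ZMod L → ℝ := fun t => qr L ^ 3 / qr (1 + mu t) ^ 3 with hh
  have hpos : ∀ t, 0 ≤ h t := fun t => by
    simp only [hh]
    have q1 := qr_nn (L : ℝ)
    have q2 := qr_nn (1 + mu t)
    positivity
  set F : Fin d → ZMod L → ℝ := fun i t => (if i = i₀ then h t else 1) *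
    (if i = i₁ then h t else 1) with hF
  have hFnn : ∀ i t, 0 ≤ F i t := by
    intro i t
    simp only [hF]
    apply mul_nonneg <;> split_ifs <;> first | exact hpos t | exact zero_le_one
  have hFprod : ∀ k : Fin d → ZMod L, ∏ i, F i (k i) = h (k i₀) * h (k i₁) := by
    intro k
    simp only [hF]
    rw [Finset.prod_mul_distrib, Finset.prod_ite_eq' Finset.univ i₀ (fun i => h (k i)),
      Finset.prod_ite_eq' Finset.univ i₁ (fun i => h (k i)), if_pos (Finset.mem_univ _),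
      if_pos (Finset.mem_univ _)]
  have hsum_h : ∑ t, h t ≤ 8 * L := by
    have h1 : ∑ t, h t = qr L ^ 3 * ∑ t : ZMod L, 1 / qr (1 + mu t) ^ 3 := by
      rw [Finset.mul_sum]
      refine Finset.sum_congr rfl fun t _ => ?_
      simp only [hh]
      ring
    rw [h1]
    calc qr L ^ 3 * ∑ t : ZMod L, 1 / qr (1 + mu t) ^ 3 ≤ qr L ^ 3 * (8 * qr L) :=
          mul_le_mul_of_nonneg_left sum_mu3 (pow_nonneg (qr_nn _) _)
      _ = 8 * qr L ^ 4 := by ring
      _ = 8 * L := by rw [qr_four hL.le]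
  have hone : ∑ _t : ZMod L, (1 : ℝ) = L := by
    rw [Finset.sum_const, Finset.card_univ, ZMod.card, nsmul_eq_mul, mul_one]
  set c : Fin d → ℝ := fun i => (if i = i₀ then 8 else 1) * (if i = i₁ then 8 else 1) with hc
  have hFsum : ∀ i, ∑ t, F i t ≤ c i * L := by
    intro i
    simp only [hF, hc]
    by_cases h0 : i = i₀
    · have h1 : ¬ i = i₁ := fun h' => hi (h0.symm.trans h')
      simp only [if_pos h0, if_neg h1, mul_one]
      exact hsum_h
    · by_cases h1 : i = i₁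
      · simp only [if_neg h0, if_pos h1, one_mul]
        exact hsum_h
      · simp only [if_neg h0, if_neg h1, mul_one, one_mul]
        exact hone.le
  have hcprod : ∏ i, c i = 64 := by
    simp only [hc]
    rw [Finset.prod_mul_distrib, Finset.prod_ite_eq' Finset.univ i₀ (fun _ => (8 : ℝ)),
      Finset.prod_ite_eq' Finset.univ i₁ (fun _ => (8 : ℝ)), if_pos (Finset.mem_univ _),
      if_pos (Finset.mem_univ _)]
    norm_num
  have hcard : (Fintype.card (Fin d → ZMod L) : ℝ) = (L : ℝ) ^ d := by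
    rw [Fintype.card_fun, ZMod.card, Fintype.card_fin]
    push_cast
    rfl
  have hprod : ∑ k : Fin d → ZMod L, ∏ i, F i (k i) ≤ 64 * (L : ℝ) ^ d := by
    have h1 := Finset.prod_univ_sum (fun _ : Fin d => (Finset.univ : Finset (ZMod L))) F
    rw [Fintype.piFinset_univ] at h1
    rw [← h1]
    calc ∏ i, ∑ t, F i t ≤ ∏ i, c i * L :=
          Finset.prod_le_prod (fun i _ => Finset.sum_nonneg fun t _ => hFnn i t)
            (fun i _ => hFsum i)
      _ = 64 * (L : ℝ) ^ d := by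
          rw [Finset.prod_mul_distrib, hcprod, Finset.prod_const, Finset.card_univ,
            Fintype.card_fin]
  calc ∑ k ∈ (Finset.univ : Finset (Fin d → ZMod L)).erase 0, 1 / qr (lam k) ^ 3 ≤
        ∑ k ∈ (Finset.univ : Finset (Fin d → ZMod L)).erase 0, ∏ i, F i (k i) := by
        apply Finset.sum_le_sum
        intro k hk
        rw [hFprod]
        exact (one_k3 hi (Finset.ne_of_mem_erase hk)).2
    _ ≤ ∑ k : Fin d → ZMod L, ∏ i, F i (k i) := by
        apply Finset.sum_le_sum_of_subset_of_nonneg (Finset.erase_subset _ _)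
        intro k _ _
        exact Finset.prod_nonneg fun i _ => hFnn i _
    _ ≤ 64 * (L : ℝ) ^ d := hprod
    _ = 64 * (Fintype.card (Fin d → ZMod L) : ℝ) := by rw [hcard]

theorem main : S_GAM := by
  intro d hd ε hε
  refine ⟨(ε / 64) ^ 4, by positivity, ?_⟩
  intro L _
  set γ : ℝ := (ε / 64) ^ 4 with hγ
  have hγ0 : 0 ≤ γ := by positivity
  have hq : qr γ = ε / 64 := qr_four' (by positivity)
  let i₀ : Fin d := ⟨0, by omega⟩
  let i₁ : Fin d := ⟨1, by omega⟩
  have hi : i₀ ≠ i₁ := by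
    intro h
    have := congrArg Fin.val h
    simp [i₀, i₁] at this
  have hcard : (0 : ℝ) < (Fintype.card (Fin d → ZMod L) : ℝ) := by
    exact_mod_cast Fintype.card_pos
  unfold IL ILg
  have h1 : ∑ k ∈ (Finset.univ : Finset (Fin d → ZMod L)).erase 0, 1 / Real.sqrt (lam k) ≤
      ∑ k ∈ (Finset.univ : Finset (Fin d → ZMod L)).erase 0, 1 / Real.sqrt (lam k + 2 * γ) +
        ε * (Fintype.card (Fin d → ZMod L) : ℝ) := by
    calc ∑ k ∈ (Finset.univ : Finset (Fin d → ZMod L)).erase 0, 1 / Real.sqrt (lam k) ≤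
          ∑ k ∈ (Finset.univ : Finset (Fin d → ZMod L)).erase 0,
            (1 / Real.sqrt (lam k + 2 * γ) + qr γ * (1 / qr (lam k) ^ 3)) := by
          apply Finset.sum_le_sum
          intro k hk
          exact diff_bd (one_k3 hi (Finset.ne_of_mem_erase hk)).1 hγ0
      _ = ∑ k ∈ (Finset.univ : Finset (Fin d → ZMod L)).erase 0, 1 / Real.sqrt (lam k + 2 * γ) +
            qr γ * ∑ k ∈ (Finset.univ : Finset (Fin d → ZMod L)).erase 0,
              1 / qr (lam k) ^ 3 := by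
          rw [Finset.sum_add_distrib, Finset.mul_sum]
      _ ≤ _ := by
          have h2 := lat3 d hd L
          have h3 := mul_le_mul_of_nonneg_left h2 (qr_nn γ)
          have h4 : qr γ * (64 * (Fintype.card (Fin d → ZMod L) : ℝ)) =
              ε * (Fintype.card (Fin d → ZMod L) : ℝ) := by rw [hq]; ring
          linarith
  rw [div_add' _ _ _ hcard.ne']
  exact div_le_div_of_nonneg_right h1 hcard.le

end Pool.Agent.N822.QLGAM
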